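import Pool.Agent.N28.BM.Deep

/-!
# The Breuil-Mezard conjecture: Hodge types far away from the walls, and quasi-polynomials

`K / ℚ_p` finite with residue field `k` (`q = p ^ f` elements), `d = n + 1`, `S = Hom(K, E)`,
`ρ̄ : G_K → GL_d(𝔽)`. We fix an embedding `ι` of `k` into an algebraically closed field `F` of
characteristic `p`; the embedding `σ ∈ S` induces the residue embedding `x ↦ ι(x) ^ (p ^ κ σ)`,
`κ : S → ℤ/f` surjective. `t : Fˣ → ℂˣ` is an injective homomorphism (Brauer lift).

* `h : Wt S d` is a family of integers; `Dom h`: `h` is a tuple of regular labelled Hodge-Tate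
  weights, `h_{σ,1} > ... > h_{σ,d}` for every `σ` (`h = λ + (d - 1, ..., 0)` for a Hodge type `λ`).
* `T` is the set of inertial types; `e τ h` (`h` regular) is the Hilbert-Samuel multiplicity of
  `R^{λ,τ}_{ρ̄} / ϖ`, extended to all `h` as an alternating function (`Alt`).
* `s h` is the Weyl character of highest weight `h - ρ` (`IsWeyl`), `D` the Serre weights with their
  Brauer characters, `θ τ` the Brauer character of the reduction of `σ(τ)`, and `mult τ h w` the
  multiplicity of the Serre weight `w` in the reduction of `L_{λ,τ}` (`IsMult`).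
* `Deep N h`: all differences `h_{σ,i} - h_{σ,i+1}` and all weights `h_{σ,d}` are at least `N`.

**Theorem.** (1) Let `N` be any integer. Non-negative integers `μ_w` with
`e τ h = ∑ mult τ h w μ_w` for all inertial types `τ` and all Hodge types `h` exist (Q1 for `ρ̄`) if
and only if every `e τ` satisfies the difference equations in the Hodge-Tate weights (step `p` at
`r` of the weights at one embedding against step `1` at `r` of the weights at an embedding with
Frobenius conjugate residue embedding) and there are non-negative integers `μ_w` such that the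
identity holds for all inertial types and all Hodge types with `Deep N`.

(2) If `e τ` satisfies the difference equations (for example if Q1 holds), it is a quasi-polynomial:
with `m = (d!)^[K : ℚ_p]` and `E = |GL_d(k)|`, for all tuples `h`, `v` of integers
`∑_{j = 0}^m (-1)^(m-j) (m choose j) e τ (h + j E v) = 0`.
-/

namespace Pool.Agent.Results.MP_7cb106_nt.RegularHodgeTypesSuffice

open Pool.Agent.N28.BM

/-- **The Breuil-Mezard conjecture for `ρ̄` is equivalent to difference equations in the Hodge-Tate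
weights together with the case of the Hodge types far away from the walls; solutions of the difference
equations are quasi-polynomials.** -/
theorem result {k F : Type} [Field k] [Fintype k] [Field F] [IsAlgClosed F] (ι : k →+* F)
    {p f : ℕ} [Fact p.Prime] [CharP F p] (hk : Fintype.card k = p ^ f) (hf : f ≠ 0)
    {S : Type} [Fintype S] [DecidableEq S] {n : ℕ} (κ : S → ZMod f)
    (hκ : Function.Surjective κ) (t : Fˣ →* ℂˣ) (ht : Function.Injective t)
    (s : Wt S (n + 1) → P S (n + 1)) (hs : IsWeyl s) (D : SerreWeights k F (n + 1) t)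
    {T : Type*} (θ : T → Matrix.GeneralLinearGroup (Fin (n + 1)) k → ℂ)
    (mult : T → Wt S (n + 1) → D.W → ℕ)
    (hmult : ∀ τ, IsMult ι (p := p) κ t s D (θ τ) (mult τ))
    (e : T → Wt S (n + 1) → ℤ) (he : ∀ τ, Alt (e τ)) :
    (∀ N : ℤ, (∃ μ : D.W → ℕ, ∀ τ h, Dom h → e τ h = ∑ w, (mult τ h w : ℤ) * μ w) ↔
      (∀ τ h, Dom h → ∀ σ σ', κ σ' = κ σ + 1 → ∀ r, 1 ≤ r → r ≤ n + 1 →
        shift (e τ) h σ p r = shift (e τ) h σ' 1 r) ∧
      ∃ μ : D.W → ℕ, ∀ τ h, Dom h → Deep N h → e τ h = ∑ w, (mult τ h w : ℤ) * μ w) ∧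
    (∀ τ, (∀ h, Dom h → ∀ σ σ', κ σ' = κ σ + 1 → ∀ r, 1 ≤ r → r ≤ n + 1 →
        shift (e τ) h σ p r = shift (e τ) h σ' 1 r) → ∀ h v : Wt S (n + 1),
      ∑ j ∈ Finset.range (ordW S (n + 1) + 1), cf (ordW S (n + 1)) j •
        e τ (h + (j * ordGL k (n + 1)) • v) = 0) := by
  have key : ∀ (μ : D.W → ℕ) τ h, (∑ w, (mult τ h w : ℤ) * μ w) =
      ∑ w, mult τ h w • ((μ w : ℕ) : ℤ) := by
    intro μ τ h
    refine Finset.sum_congr rfl fun w _ => ?_
    rw [nsmul_eq_mul]
  refine ⟨fun N => ⟨?_, ?_⟩, ?_⟩
  · rintro ⟨μ, hμ⟩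
    have h1 := (deep ι hk hf κ hκ t ht s hs D θ mult hmult e he (fun w => ((μ w : ℕ) : ℤ)) N).1
      (fun τ h hh => by rw [hμ τ h hh, key])
    exact ⟨h1.1, μ, fun τ h hh hd => hμ τ h hh⟩
  · rintro ⟨hE, μ, hμ⟩
    refine ⟨μ, fun τ h hh => ?_⟩
    have h1 := (deep ι hk hf κ hκ t ht s hs D θ mult hmult e he (fun w => ((μ w : ℕ) : ℤ)) N).2
      ⟨hE, fun τ h hh hd => by rw [hμ τ h hh hd, key]⟩ τ h hh
    rw [h1, key]
  · intro τ hE h v
    exact quasi_polynomial ι hk hf κ hκ t ht s hs (e τ) (he τ)
      (equations_of_dom κ p (e τ) (he τ) hE) h v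

end Pool.Agent.Results.MP_7cb106_nt.RegularHodgeTypesSuffice
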